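import Pool.Agent.Y241.FR.Spec
import Pool.Agent.Helper693.RF.GrAssembly

/-!
# Minimal polynomials on the fibres of general projections
-/

namespace Pool.Agent.Y241.FR

open MvPolynomial H693RF

universe u

/-- The ideal of the coordinate ring of the fibre over the point `p` (`p ≠ 0`) of the projection
`x ↦ (H_0(x) : ... : H_{K-1}(x))`: the polynomials of `P` and the polynomials `H_l(x) - p_l`. -/
noncomputable def fibreRingIdeal {𝕜 : Type*} [Field 𝕜] {r K : ℕ}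
    (P : Ideal (MvPolynomial (Fin (r+1)) 𝕜)) (H : Fin K → Fin (r+1) → 𝕜) (p : Fin K → 𝕜) :
    Ideal (MvPolynomial (Fin (r+1)) 𝕜) :=
  P ⊔ Ideal.span (Set.range fun l => linForm (H l) - C (p l))

theorem extI_self {𝕜 : Type*} [Field 𝕜] {r : ℕ} (P : Ideal (MvPolynomial (Fin (r+1)) 𝕜)) :
    extI 𝕜 P = P := by
  unfold extI
  have : (MvPolynomial.map (algebraMap 𝕜 𝕜) :
      MvPolynomial (Fin (r+1)) 𝕜 →+* MvPolynomial (Fin (r+1)) 𝕜) = RingHom.id _ := by
    ext <;> simp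
  rw [this, Ideal.map_id]

theorem fibI_eq {𝕜 : Type*} [Field 𝕜] {r K : ℕ}
    (P : Ideal (MvPolynomial (Fin (r+1)) 𝕜)) (H : Fin K → Fin (r+1) → 𝕜) (p : Fin K → 𝕜) :
    fibI 𝕜 P H p = fibreRingIdeal P H p := by
  unfold fibI fibreRingIdeal
  rw [extI_self]
  rfl

/-- from polynomials of bounded degree to all polynomials -/
theorem all_elements {𝕜 : Type*} [Field 𝕜] [CharZero 𝕜] {r D D₀ : ℕ}
    (I : Ideal (MvPolynomial (Fin (r+1)) 𝕜)) (hD : D ≤ D₀) (hD₀ : 1 ≤ D₀)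
    (h : ∀ g : MvPolynomial (Fin (r+1)) 𝕜, g.totalDegree ≤ D₀ →
      ∃ Q : Polynomial 𝕜, Q.Monic ∧ Q.natDegree = D ∧ Polynomial.aeval g Q ∈ I) :
    (∀ g : MvPolynomial (Fin (r+1)) 𝕜,
      ∃ Q : Polynomial 𝕜, Q.Monic ∧ Q.natDegree = D ∧ Polynomial.aeval g Q ∈ I) ∧
    (1 ≤ D → ∀ g : MvPolynomial (Fin (r+1)) 𝕜, ∃ g' : MvPolynomial (Fin (r+1)) 𝕜,
      g'.totalDegree ≤ D - 1 ∧ g - g' ∈ I) := by
  have hred : 1 ≤ D → ∀ g : MvPolynomial (Fin (r+1)) 𝕜, ∃ g' : MvPolynomial (Fin (r+1)) 𝕜,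
      g'.totalDegree ≤ D - 1 ∧ g - g' ∈ I := by
    intro hD1
    obtain ⟨d, rfl⟩ : ∃ d, D = d + 1 := ⟨D - 1, by omega⟩
    rw [Nat.add_sub_cancel]
    apply H693RF.RG.all_of_powers
    intro b
    set v : MvPolynomial (Fin (r+1)) 𝕜 := ∑ j, C (b j) * X j with hv
    have hv1 : v.totalDegree ≤ 1 := H693RF.RG.totalDegree_linform_le b
    obtain ⟨Q, hQm, hQd, hQ⟩ := h v (hv1.trans hD₀)
    refine ⟨Polynomial.aeval v (Polynomial.X ^ (d+1) - Q), ?_, ?_⟩
    · apply H693RF.RG.totalDegree_aeval_le _ hv1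
      have hlt : (Polynomial.X ^ (d+1) - Q).degree <
          (Polynomial.X ^ (d+1) : Polynomial 𝕜).degree := by
        apply Polynomial.degree_sub_lt_left
        · rw [Polynomial.degree_X_pow, Polynomial.degree_eq_natDegree hQm.ne_zero, hQd]
        · exact pow_ne_zero _ Polynomial.X_ne_zero
        · rw [hQm.leadingCoeff, (Polynomial.monic_X_pow _).leadingCoeff]
      rw [Polynomial.degree_X_pow] at hlt
      rw [Polynomial.natDegree_le_iff_coeff_eq_zero]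
      intro M hM
      exact Polynomial.coeff_eq_zero_of_degree_lt (lt_of_lt_of_le hlt (by exact_mod_cast hM))
    · have h1 : v ^ (d+1) - Polynomial.aeval v (Polynomial.X ^ (d+1) - Q) = Polynomial.aeval v Q := by
        simp
      rw [h1]
      exact hQ
  refine ⟨?_, hred⟩
  intro g
  rcases Nat.eq_zero_or_pos D with h0 | hpos
  · obtain ⟨Q, hQm, hQd, hQ⟩ := h 0 (by simp)
    rw [h0] at hQd
    have hQ1 : Q = 1 := Polynomial.eq_one_of_monic_natDegree_zero hQm hQd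
    rw [hQ1, map_one] at hQ
    refine ⟨1, Polynomial.monic_one, by simp [h0], ?_⟩
    rw [map_one]
    exact hQ
  · obtain ⟨g', hg', hgg⟩ := hred hpos g
    obtain ⟨Q, hQm, hQd, hQ⟩ := h g' (hg'.trans (by omega))
    refine ⟨Q, hQm, hQd, ?_⟩
    have h1 : Ideal.Quotient.mkₐ 𝕜 I g = Ideal.Quotient.mkₐ 𝕜 I g' := (Ideal.Quotient.eq).2 hgg
    have h2 := Polynomial.aeval_algHom_apply (Ideal.Quotient.mkₐ 𝕜 I) g Q
    have h3 := Polynomial.aeval_algHom_apply (Ideal.Quotient.mkₐ 𝕜 I) g' Q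
    rw [h1, h3] at h2
    have h4 : Ideal.Quotient.mkₐ 𝕜 I (Polynomial.aeval g' Q) = 0 :=
      Ideal.Quotient.eq_zero_iff_mem.2 hQ
    rw [h4] at h2
    exact Ideal.Quotient.eq_zero_iff_mem.1 h2.symm

/-- a nonzero polynomial in two groups of variables -/
theorem split_poly {𝕜 σ τ : Type*} [Field 𝕜] (Φ : MvPolynomial (σ ⊕ τ) 𝕜) (hΦ : Φ ≠ 0) :
    ∃ φ : MvPolynomial τ 𝕜, φ ≠ 0 ∧ ∀ h : τ → 𝕜, eval h φ ≠ 0 →
      ∃ Ψ : MvPolynomial σ 𝕜, Ψ ≠ 0 ∧ ∀ m : σ → 𝕜, eval m Ψ ≠ 0 → eval (Sum.elim m h) Φ ≠ 0 := by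
  classical
  set F := sumRingEquiv 𝕜 σ τ Φ with hF
  have hF0 : F ≠ 0 := by
    intro h
    apply hΦ
    exact (sumRingEquiv 𝕜 σ τ).injective (by rw [map_zero]; exact h)
  obtain ⟨α, hα⟩ := MvPolynomial.ne_zero_iff.1 hF0
  refine ⟨coeff α F, hα, fun h hh => ⟨map (eval h) F, ?_, ?_⟩⟩
  · intro h0
    have h1 := congrArg (coeff α) h0
    rw [coeff_map, coeff_zero] at h1
    exact hh h1
  · intro m hm
    have key : ∀ Φ' : MvPolynomial (σ ⊕ τ) 𝕜,
        eval m (map (eval h) (sumRingEquiv 𝕜 σ τ Φ')) = eval (Sum.elim m h) Φ' := by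
      intro Φ'
      induction Φ' using MvPolynomial.induction_on with
      | C a => simp
      | add p q hp hq => simp only [map_add, hp, hq]
      | mul_X p i hp =>
        rw [map_mul, map_mul, map_mul, hp, map_mul]
        congr 1
        rcases i with i | i
        · simp
        · simp
    rw [← key]
    exact hm

/-- the centres of the projections outside a hypersurface form a dense open set -/
theorem isDenseOpen_of_poly {𝕜 : Type*} [Field 𝕜] [Infinite 𝕜] {r K : ℕ}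
    (Φ : MvPolynomial (Fin K × Fin (r+1)) 𝕜) (hΦ : Φ ≠ 0)
    (hli : ∀ H : Fin K → Fin (r+1) → 𝕜, eval (fun ij => H ij.1 ij.2) Φ ≠ 0 → LinearIndependent 𝕜 H) :
    IsDenseOpen r K {Λ | ∃ H : Fin K → Fin (r+1) → 𝕜, eval (fun ij => H ij.1 ij.2) Φ ≠ 0 ∧
      centre H = Λ} := by
  refine ⟨?_, ?_, ?_⟩
  · rintro Λ ⟨H, hH, rfl⟩
    exact finrank_centre H (hli H hH)
  · refine ⟨Set.range fun A : Matrix (Fin K) (Fin K) 𝕜 =>
      bind₁ (fun ij : Fin K × Fin (r+1) => ∑ l, C (A ij.1 l) * X (l, ij.2)) Φ, fun H => ?_⟩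
    have hev : ∀ A : Matrix (Fin K) (Fin K) 𝕜,
        eval (fun ij => H ij.1 ij.2) (bind₁ (fun ij : Fin K × Fin (r+1) => ∑ l, C (A ij.1 l) * X (l, ij.2)) Φ) =
        eval (fun ij => mulM A H ij.1 ij.2) Φ := by
      intro A
      rw [← MvPolynomial.coe_aeval_eq_eval]
      rw [RingHom.coe_coe, aeval_bind₁, ← MvPolynomial.coe_aeval_eq_eval, RingHom.coe_coe]
      congr 2
      funext ij
      simp [mulM]
    constructor
    · rintro ⟨hlin, H₀, hH₀, hcen⟩
      obtain ⟨A, hA⟩ := exists_coeffs H H₀ hcen.ge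
      refine ⟨_, ⟨A, rfl⟩, ?_⟩
      rw [hev]
      have : mulM A H = H₀ := by
        funext i j
        exact (hA i j).symm
      rw [this]
      exact hH₀
    · rintro ⟨_, ⟨A, rfl⟩, hA⟩
      simp only [hev] at hA
      have hlin := hli _ hA
      have hliH := li_of_mulM A H hlin
      refine ⟨hliH, mulM A H, hA, ?_⟩
      symm
      apply Submodule.eq_of_le_of_finrank_eq (centre_le_mulM A H)
      have h1 := finrank_centre H hliH
      have h2 := finrank_centre _ hlin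
      omega
  · intro Ψ hΨ
    have h1 : Φ * Ψ ≠ 0 := mul_ne_zero hΦ hΨ
    obtain ⟨x, hx⟩ : ∃ x, eval x (Φ * Ψ) ≠ 0 := by
      by_contra hcon
      push Not at hcon
      exact h1 (MvPolynomial.funext fun x => by rw [hcon x, map_zero])
    obtain ⟨H, hHx⟩ : ∃ H : Fin K → Fin (r+1) → 𝕜, (fun ij : Fin K × Fin (r+1) => H ij.1 ij.2) = x :=
      ⟨fun i j => x (i, j), by funext ij; rfl⟩
    rw [← hHx, map_mul] at hx
    have hx1 := left_ne_zero_of_mul hx
    have hx2 := right_ne_zero_of_mul hx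
    exact ⟨H, hli H hx1, ⟨H, hx1, rfl⟩, hx2⟩

/-- comparison of the ideals of the fibres under a change of coordinates on the target -/
theorem fibreRingIdeal_mul_le {𝕜 : Type*} [Field 𝕜] {r K : ℕ} (P : Ideal (MvPolynomial (Fin (r+1)) 𝕜))
    (H H' : Fin K → Fin (r+1) → 𝕜) (A : Matrix (Fin K) (Fin K) 𝕜)
    (hA : ∀ i j, H' i j = ∑ l, A i l * H l j)
    (p p' : Fin K → 𝕜) (hp : ∀ i, p' i = ∑ l, A i l * p l) :
    fibreRingIdeal P H' p' ≤ fibreRingIdeal P H p := by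
  refine sup_le le_sup_left ?_
  rw [Ideal.span_le]
  rintro _ ⟨i, rfl⟩
  have h1 : linForm (H' i) - C (p' i) = ∑ l, C (A i l) * (linForm (H l) - C (p l)) := by
    have hl : linForm (H' i) = ∑ l, C (A i l) * linForm (H l) := by
      simp only [linForm, Finset.mul_sum]
      rw [Finset.sum_comm]
      apply Finset.sum_congr rfl
      intro j _
      rw [hA, map_sum, Finset.sum_mul]
      exact Finset.sum_congr rfl fun l _ => by rw [map_mul, mul_assoc]
    rw [hl, hp, map_sum]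
    simp only [mul_sub, Finset.sum_sub_distrib, map_mul]
  show linForm (H' i) - C (p' i) ∈ _
  rw [h1]
  exact Ideal.sum_mem _ fun l _ => Ideal.mul_mem_left _ _
    (Ideal.mem_sup_right (Ideal.subset_span ⟨l, rfl⟩))

/-- Every element of the coordinate ring of the fibre over `p` is a root of a monic polynomial of
degree `D`, and the regularity of the fibre is at most `D` if `D` is positive. -/
def FibreBound {𝕜 : Type*} [Field 𝕜] {r K : ℕ} (P : Ideal (MvPolynomial (Fin (r+1)) 𝕜))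
    (H : Fin K → Fin (r+1) → 𝕜) (p : Fin K → 𝕜) (D : ℕ) : Prop :=
  (∀ g : MvPolynomial (Fin (r+1)) 𝕜, ∃ Q : Polynomial 𝕜, Q.Monic ∧ Q.natDegree = D ∧
    Polynomial.aeval g Q ∈ fibreRingIdeal P H p) ∧
  (1 ≤ D → ∃ m : ℕ, IsRegularity (fiberIdeal P H p) m ∧ m ≤ D)

theorem FibreBound.mono {𝕜 : Type*} [Field 𝕜] {r K : ℕ} {P : Ideal (MvPolynomial (Fin (r+1)) 𝕜)}
    {H : Fin K → Fin (r+1) → 𝕜} {p : Fin K → 𝕜} {D D' : ℕ} (hD : D ≤ D') (hD1 : 1 ≤ D)
    (h : FibreBound P H p D) : FibreBound P H p D' := by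
  refine ⟨fun g => ?_, fun _ => ?_⟩
  · obtain ⟨Q, hQm, hQd, hQ⟩ := h.1 g
    refine ⟨Q * Polynomial.X ^ (D' - D), hQm.mul (Polynomial.monic_X_pow _), ?_, ?_⟩
    · rw [hQm.natDegree_mul (Polynomial.monic_X_pow _), Polynomial.natDegree_X_pow, hQd]
      omega
    · rw [map_mul]
      exact Ideal.mul_mem_right _ _ hQ
  · obtain ⟨m, hm, hm1⟩ := h.2 hD1
    exact ⟨m, hm, hm1.trans hD⟩

/-- the bound for one fibre from the equations of the polynomials of bounded degree -/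
theorem fibreBound_of {𝕜 : Type*} [Field 𝕜] [IsAlgClosed 𝕜] [CharZero 𝕜] {r K D D₀ : ℕ}
    (P : Ideal (MvPolynomial (Fin (r+1)) 𝕜))
    (hhom : ∀ F ∈ P, ∀ d, homogeneousComponent d F ∈ P)
    (H : Fin K → Fin (r+1) → 𝕜)
    (hcen : ∀ x : Fin (r+1) → 𝕜, x ≠ 0 → (∀ F ∈ P, eval x F = 0) → ∃ i, eval x (linForm (H i)) ≠ 0)
    (hD : D ≤ D₀) (hD₀ : 1 ≤ D₀) (p : Fin K → 𝕜) (i₀ : Fin K) (hp : p i₀ ≠ 0)
    (h : ∀ t : 𝕜, t ≠ 0 → ∀ g : MvPolynomial (Fin (r+1)) 𝕜, g.totalDegree ≤ D₀ →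
      ∃ Q : Polynomial 𝕜, Q.Monic ∧ Q.natDegree = D ∧
        Polynomial.aeval g Q ∈ fibI 𝕜 P H (fun i => t * p i)) :
    FibreBound P H p D := by
  refine ⟨?_, fun hD1 => ?_⟩
  · have h1 := (all_elements _ hD hD₀ (h 1 one_ne_zero)).1
    simp only [one_mul] at h1
    rw [← fibI_eq]
    exact h1
  · have hp' : (fun i => (p i₀)⁻¹ * p i) i₀ = 1 := inv_mul_cancel₀ hp
    have hred := (all_elements _ hD hD₀ (h (p i₀)⁻¹ (inv_ne_zero hp))).2 hD1
    obtain ⟨k1, k2, k3⟩ := fibre_conclusions P hhom H hcen _ i₀ hp' (D - 1) hred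
    rw [fiberIdeal_smul P H p _ (inv_ne_zero hp)] at k1 k2 k3
    exact ⟨reg (fiberIdeal P H p), ⟨Nat.sInf_mem k2, fun m hm => Nat.sInf_le hm⟩, by omega⟩

theorem main (𝕜 : Type u) [Field 𝕜] [IsAlgClosed 𝕜] [CharZero 𝕜] (r n c : ℕ) (hc : 1 ≤ c)
    (hr : n + c < r) (P : Ideal (MvPolynomial (Fin (r+1)) 𝕜)) (hP : IsSmoothProjectiveVariety 𝕜 r n P) :
    ∃ U : Set (Submodule 𝕜 (Fin (r+1) → 𝕜)), IsDenseOpen r (n+c+1) U ∧
      ∀ Λ ∈ U, (∀ x ∈ Λ, x ≠ 0 → ∃ F ∈ P, eval x F ≠ 0) ∧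
        ∀ H : Fin (n+c+1) → Fin (r+1) → 𝕜, centre H = Λ →
          ∀ s : ℕ, s ≤ n + c → ∃ Ψ : MvPolynomial (Fin s × Fin (n+c+1)) 𝕜, Ψ ≠ 0 ∧
            ∀ M : Fin s → Fin (n+c+1) → 𝕜, eval (fun il => M il.1 il.2) Ψ ≠ 0 →
              ∀ p : Fin (n+c+1) → 𝕜, p ≠ 0 → (∀ i, ∑ l, M i l * p l = 0) →
                ∀ D : ℕ, n < s + c * D → FibreBound P H p D := by
  classical
  obtain ⟨Φ₀, hΦ₀, hΦ₀'⟩ := H693RF.result 𝕜 r n c hc hr P hP
  -- the polynomials for the pairs `(s, D)`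
  have hex : ∀ (s : ℕ) (D : ℕ) (i₀ : Fin (n+c+1)),
      ∃ Φ : MvPolynomial ((Fin s × Fin (n+c+1)) ⊕ (Fin (n+c+1) × Fin (r+1))) 𝕜, Φ ≠ 0 ∧
      (s ≤ n + c → n < s + c * D → ∀ (M : Fin s → Fin (n+c+1) → 𝕜) (H : Fin (n+c+1) → Fin (r+1) → 𝕜),
        eval (Sum.elim (fun ij => M ij.1 ij.2) (fun ij => H ij.1 ij.2)) Φ ≠ 0 →
        ∀ p : Fin (n+c+1) → 𝕜, p i₀ ≠ 0 → (∀ i, ∑ l, M i l * p l = 0) →
          ∀ g : MvPolynomial (Fin (r+1)) 𝕜, g.totalDegree ≤ n + 1 →
            ∃ Q : Polynomial 𝕜, Q.Monic ∧ Q.natDegree = D ∧ Polynomial.aeval g Q ∈ fibI 𝕜 P H p) := by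
    intro s D i₀
    by_cases h1 : s ≤ n + c
    · by_cases h2 : n < s + c * D
      · obtain ⟨Φ, hΦ, h3⟩ := special_minpoly hc (by omega) h1 P hP D h2 (n+1) i₀
        exact ⟨Φ, hΦ, fun _ _ => h3⟩
      · exact ⟨1, one_ne_zero, fun _ h => absurd h h2⟩
    · exact ⟨1, one_ne_zero, fun h => absurd h h1⟩
  choose Φ hΦ hΦ' using hex
  let Φs : ∀ s : ℕ, MvPolynomial ((Fin s × Fin (n+c+1)) ⊕ (Fin (n+c+1) × Fin (r+1))) 𝕜 :=
    fun s => ∏ D ∈ Finset.range (n+2), ∏ i₀, Φ s D i₀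
  have hΦs : ∀ s, Φs s ≠ 0 := fun s => Finset.prod_ne_zero_iff.2 fun D _ =>
    Finset.prod_ne_zero_iff.2 fun i _ => hΦ s D i
  choose φ hφ hφ' using fun s => split_poly (Φs s) (hΦs s)
  set Φt : MvPolynomial (Fin (n+c+1) × Fin (r+1)) 𝕜 := Φ₀ * ∏ s ∈ Finset.range (n+c+1), φ s with hΦt
  have hΦt0 : Φt ≠ 0 := mul_ne_zero hΦ₀ (Finset.prod_ne_zero_iff.2 fun s _ => hφ s)
  refine ⟨_, isDenseOpen_of_poly Φt hΦt0 (fun H hH => (hΦ₀' H (by
    rw [hΦt, map_mul] at hH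
    exact left_ne_zero_of_mul hH)).1), ?_⟩
  rintro Λ ⟨H₀, hH₀, rfl⟩
  rw [hΦt, map_mul, map_prod] at hH₀
  have hH₀1 := left_ne_zero_of_mul hH₀
  have hH₀2 := Finset.prod_ne_zero_iff.1 (right_ne_zero_of_mul hH₀)
  obtain ⟨hli, hcen, -⟩ := hΦ₀' H₀ hH₀1
  refine ⟨?_, ?_⟩
  · intro x hx hx0
    by_contra hcon
    push Not at hcon
    obtain ⟨i, hi⟩ := hcen x hx0 hcon
    apply hi
    have := hx i
    simpa [linForm] using this
  · intro H hHΛ s hs
    obtain ⟨A, hA⟩ := exists_coeffs H₀ H hHΛ.ge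
    obtain ⟨B, hB⟩ := exists_coeffs H H₀ hHΛ.le
    have hBA : B * A = 1 := mul_eq_one_of A B H H₀ hA hB hli
    have hAB : A * B = 1 := mul_eq_one_comm.1 hBA
    obtain ⟨Ψ, hΨ, hΨ'⟩ := hφ' s (fun ij => H₀ ij.1 ij.2) (hH₀2 s (Finset.mem_range.2 (by omega)))
    -- the change of coordinates for the linear subspaces
    let τ : Fin s × Fin (n+c+1) → MvPolynomial (Fin s × Fin (n+c+1)) 𝕜 :=
      fun il => ∑ l, C (A l il.2) * X (il.1, l)
    have hev : ∀ M : Fin s → Fin (n+c+1) → 𝕜, eval (fun il => M il.1 il.2) (bind₁ τ Ψ) =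
        eval (fun il : Fin s × Fin (n+c+1) => ∑ l, M il.1 l * A l il.2) Ψ := by
      intro M
      rw [← MvPolynomial.coe_aeval_eq_eval]
      rw [RingHom.coe_coe, aeval_bind₁, ← MvPolynomial.coe_aeval_eq_eval, RingHom.coe_coe]
      congr 2
      funext il
      simp only [τ, map_sum, map_mul, aeval_X, algHom_C]
      exact Finset.sum_congr rfl fun l _ => mul_comm _ _
    refine ⟨bind₁ τ Ψ, ?_, ?_⟩
    · intro h0
      obtain ⟨x, hx⟩ : ∃ x, eval x Ψ ≠ 0 := by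
        by_contra hcon
        push Not at hcon
        exact hΨ (MvPolynomial.funext fun x => by rw [hcon x, map_zero])
      have h1 := hev (fun i l => ∑ k, x (i, k) * B k l)
      rw [h0, map_zero] at h1
      apply hx
      rw [h1]
      congr 1
      congr 1
      funext il
      have h2 : ∀ k, ∑ l, B k l * A l il.2 = if k = il.2 then 1 else 0 := by
        intro k
        have := congrFun (congrFun hBA k) il.2
        rw [Matrix.mul_apply, Matrix.one_apply] at this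
        exact this
      have h3 : ∑ l, (∑ k, x (il.1, k) * B k l) * A l il.2 =
          ∑ k, x (il.1, k) * ∑ l, B k l * A l il.2 := by
        simp only [Finset.sum_mul, Finset.mul_sum]
        rw [Finset.sum_comm]
        exact Finset.sum_congr rfl fun k _ => Finset.sum_congr rfl fun l _ => by ring
      rw [h3]
      simp [h2]
    · intro M hM p hp hMp D hD
      rw [hev] at hM
      set M₀ : Fin s → Fin (n+c+1) → 𝕜 := fun i l' => ∑ l, M i l * A l l' with hM₀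
      have hgood := hΨ' (fun il => M₀ il.1 il.2) hM
      set p₀ : Fin (n+c+1) → 𝕜 := fun i => ∑ l, B i l * p l with hp₀
      have hp1 : ∀ i, p i = ∑ l, A i l * p₀ l := by
        intro i
        have h1 : p i = ∑ m, (A * B) i m * p m := by
          rw [hAB]; simp [Matrix.one_apply]
        rw [h1]
        simp only [Matrix.mul_apply, Finset.sum_mul, hp₀, Finset.mul_sum]
        rw [Finset.sum_comm]
        exact Finset.sum_congr rfl fun l _ => Finset.sum_congr rfl fun m _ => by ring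
      have hp₀0 : p₀ ≠ 0 := by
        intro h
        apply hp
        funext i
        rw [hp1 i, h]
        simp
      have hMp₀ : ∀ i, ∑ l, M₀ i l * p₀ l = 0 := by
        intro i
        rw [← hMp i]
        have h1 : ∑ l, M i l * p l = ∑ l, M i l * ∑ k, A l k * p₀ k :=
          Finset.sum_congr rfl fun l _ => by rw [← hp1 l]
        rw [h1]
        simp only [hM₀, Finset.sum_mul, Finset.mul_sum]
        rw [Finset.sum_comm]
        exact Finset.sum_congr rfl fun l _ => Finset.sum_congr rfl fun k _ => by ring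
      obtain ⟨i₀, hi₀⟩ : ∃ i, p₀ i ≠ 0 := by
        by_contra hcon
        push Not at hcon
        exact hp₀0 (funext hcon)
      have hI : fiberIdeal P H p = fiberIdeal P H₀ p₀ :=
        le_antisymm (fiberIdeal_mul_le P H₀ H A hA p₀ p hp1) (fiberIdeal_mul_le P H H₀ B hB p p₀ (fun i => rfl))
      have hI' : fibreRingIdeal P H p = fibreRingIdeal P H₀ p₀ :=
        le_antisymm (fibreRingIdeal_mul_le P H₀ H A hA p₀ p hp1)
          (fibreRingIdeal_mul_le P H H₀ B hB p p₀ (fun i => rfl))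
      have key : ∀ D', D' ≤ n + 1 → n < s + c * D' → FibreBound P H p D' := by
        intro D' hD' hn
        have h1 : FibreBound P H₀ p₀ D' := by
          refine fibreBound_of P hP.homogeneous H₀ hcen (D₀ := n + 1) hD' (by omega) p₀ i₀ hi₀ ?_
          intro t ht g hg
          refine hΦ' s D' i₀ hs hn M₀ H₀ ?_ (fun i => t * p₀ i) (mul_ne_zero ht hi₀) ?_ g hg
          · have h2 : eval (Sum.elim (fun il : Fin s × Fin (n+c+1) => M₀ il.1 il.2)
                (fun ij : Fin (n+c+1) × Fin (r+1) => H₀ ij.1 ij.2)) (Φs s) ≠ 0 := hgood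
            rw [map_prod] at h2
            have h3 := Finset.prod_ne_zero_iff.1 h2 D' (Finset.mem_range.2 (by omega))
            rw [map_prod] at h3
            exact Finset.prod_ne_zero_iff.1 h3 i₀ (Finset.mem_univ _)
          · intro i
            have h4 : ∑ l, M₀ i l * (t * p₀ l) = t * ∑ l, M₀ i l * p₀ l := by
              rw [Finset.mul_sum]
              exact Finset.sum_congr rfl fun l _ => by ring
            rw [h4, hMp₀, mul_zero]
        unfold FibreBound at h1 ⊢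
        rw [hI, hI']
        exact h1
      rcases Nat.lt_or_ge (n + 1) D with h | h
      · refine (key (n+1) le_rfl ?_).mono (by omega) (by omega)
        have : n + 1 ≤ c * (n + 1) := Nat.le_mul_of_pos_left _ (by omega)
        omega
      · exact key D h hD

end Pool.Agent.Y241.FR
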