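import Mathlib
import Pool.Agent.Helper693.RF.Defs
import Pool.Agent.Helper693.RF.LocalThm
import Pool.Agent.Helper693.RF.GrAssembly
import Pool.Agent.Helper26.RG.Generic

/-!
# Minimal polynomials on the fibres of the generic projection

Variant of `H693RF.generic_theorem` (helpers 26 and 693): every element of the coordinate ring of a
fibre has a monic equation of small degree, with the better bound over a generic linear subspace.
-/

namespace Pool.Agent.Y241.FR

open MvPolynomial H693RF H693RF.RG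

/-- a generic matrix with at most as many rows as columns has independent rows -/
theorem li_of_algInd {𝕜 L : Type*} [Field 𝕜] [Field L] [Algebra 𝕜 L] {s K : ℕ} (hs : s ≤ K)
    (m : Fin s → Fin K → L) (hm : AlgebraicIndependent 𝕜 (fun ij : Fin s × Fin K => m ij.1 ij.2)) :
    LinearIndependent L m := by
  classical
  have h1 : AlgebraicIndependent 𝕜 (fun ij : Fin s × Fin s => m ij.1 (Fin.castLE hs ij.2)) := by
    refine hm.comp (fun ij : Fin s × Fin s => (ij.1, Fin.castLE hs ij.2)) ?_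
    intro x y hxy
    have h2 := congrArg Prod.fst hxy
    have h3 := congrArg Prod.snd hxy
    exact Prod.ext h2 (Fin.castLE_injective hs h3)
  have h4 : (Matrix.of fun i j : Fin s => m i (Fin.castLE hs j)).det ≠ 0 := by
    intro h0
    have h5 : aeval (fun ij : Fin s × Fin s => m ij.1 (Fin.castLE hs ij.2))
        (Matrix.mvPolynomialX (Fin s) (Fin s) 𝕜).det = 0 := by
      rw [← h0, AlgHom.map_det]
      congr 1
      ext i j
      simp
    have h6 := (algebraicIndependent_iff.1 h1) _ h5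
    exact Matrix.det_mvPolynomialX_ne_zero (Fin s) 𝕜 h6
  have h1 := Matrix.linearIndependent_rows_of_det_ne_zero h4
  exact LinearIndependent.of_comp (LinearMap.funLeft L L (Fin.castLE hs)) h1

/-- the dimension bound with constants in a subspace -/
theorem dimension_bound_W {L : Type*} [Field L] {r n K N : ℕ} (Z : Finset (Fin (r+1) → L))
    (φ : (Fin (r+1) → L) → (MvPolynomial (Fin (r+1)) L →ₐ[L] MvPolynomial (Fin (n+1)) L))
    (f : (Fin (r+1) → L) → Fin K → MvPolynomial (Fin (n+1)) L)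
    (I : (Fin (r+1) → L) → Ideal (MvPolynomial (Fin (n+1)) L))
    (hsurj : ∀ ξ ∈ Z, Function.Surjective (φ ξ))
    (hpt : ∀ ξ ∈ Z, ∀ j, φ ξ (X j) - C (ξ j) ∈ mI (n+1) L)
    (hI : ∀ ξ ∈ Z, mI (n+1) L ^ N ≤ I ξ)
    (hmul : ∀ l j, ∃ μ : Fin K → L, ∀ ξ ∈ Z,
      (fun l' => (if l' = l then φ ξ (X j) else 0) - C (μ l')) ∈ derSub (I ξ) (f ξ))
    (W : Submodule L (Fin K → L))
    (hone : ∀ l, ∃ μ : Fin K → L, μ ∈ W ∧ ∀ ξ ∈ Z,
      (fun l' => (if l' = l then 1 else 0) - C (μ l')) ∈ derSub (I ξ) (f ξ))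
    (p : Fin K → L) (hp : p ≠ 0) (hpW : p ∈ W)
    (hE : ∀ ξ ∈ Z, (fun l => (C (p l) : MvPolynomial (Fin (n+1)) L)) ∈ derSub (I ξ) (f ξ)) :
    ∑ ξ ∈ Z, Module.finrank L ((Fin K → MvPolynomial (Fin (n+1)) L) ⧸
      (derSub (I ξ) (f ξ)).restrictScalars L) + 1 ≤ Module.finrank L W := by
  classical
  let cst : (Fin K → L) →ₗ[L] (Fin K → MvPolynomial (Fin (n+1)) L) :=
    { toFun := fun lam l => C (lam l)
      map_add' := fun a b => by
        funext l
        simp only [Pi.add_apply, C_add]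
      map_smul' := fun a b => by
        funext l
        simp only [Pi.smul_apply, smul_eq_mul, RingHom.id_apply, C_mul, smul_eq_C_mul] }
  let Θ₀ : (Fin K → L) →ₗ[L] ((ξ : Z) → ((Fin K → MvPolynomial (Fin (n+1)) L) ⧸
      (derSub (I ξ) (f ξ)).restrictScalars L)) :=
    LinearMap.pi fun ξ : Z => (Submodule.mkQ ((derSub (I ξ) (f ξ)).restrictScalars L)).comp cst
  let Θ : W →ₗ[L] ((ξ : Z) → ((Fin K → MvPolynomial (Fin (n+1)) L) ⧸
      (derSub (I ξ) (f ξ)).restrictScalars L)) := Θ₀.comp W.subtype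
  have hΘ : ∀ (lam : W) (ξ : Z), Θ lam ξ =
    Submodule.Quotient.mk (fun l => C ((lam : Fin K → L) l)) := fun _ _ => rfl
  choose μ hμW hμ using hone
  have hs : Function.Surjective Θ := by
    intro v
    have hv : ∀ ξ : Z, ∃ w : Fin K → MvPolynomial (Fin (n+1)) L,
        (Submodule.Quotient.mk w : (Fin K → MvPolynomial (Fin (n+1)) L) ⧸
          (derSub (I ξ) (f ξ)).restrictScalars L) = v ξ := fun ξ =>
      Submodule.Quotient.mk_surjective _ (v ξ)
    choose w hw using hv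
    obtain ⟨lam, hlam⟩ := all_13388 Z φ f I hsurj hpt hI hmul w
    refine ⟨⟨∑ l, lam l • μ l, Submodule.sum_mem _ fun l _ => Submodule.smul_mem _ _ (hμW l)⟩, ?_⟩
    funext ξ
    rw [hΘ, ← hw ξ, eq_comm, Submodule.Quotient.eq]
    have e1 : w ξ - (fun l' => C ((∑ l, lam l • μ l) l')) = (w ξ - (fun l => C (lam l))) +
        ∑ l, (C (lam l) : MvPolynomial (Fin (n+1)) L) •
          (fun l' => (if l' = l then 1 else 0) - C (μ l l')) := by
      funext l'
      simp only [Pi.add_apply, Pi.sub_apply, Pi.smul_apply, Finset.sum_apply, smul_eq_mul, mul_sub,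
        Finset.sum_sub_distrib, mul_ite, mul_zero, Finset.sum_ite_eq, Finset.mem_univ, if_true,
        map_sum, C_mul]
      ring
    show w ξ - (fun l' => C ((∑ l, lam l • μ l) l')) ∈ derSub (I ξ) (f ξ)
    rw [e1]
    refine Submodule.add_mem _ (hlam ξ) (Submodule.sum_mem _ fun l _ => ?_)
    exact Submodule.smul_mem _ _ (hμ l ξ ξ.2)
  have hker : (⟨p, hpW⟩ : W) ∈ LinearMap.ker Θ := by
    rw [LinearMap.mem_ker]
    funext ξ
    rw [hΘ]
    simp only [Pi.zero_apply]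
    rw [Submodule.Quotient.mk_eq_zero]
    exact hE ξ ξ.2
  have hfinite : ∀ ξ : Z, Module.Finite L ((Fin K → MvPolynomial (Fin (n+1)) L) ⧸
      (derSub (I ξ) (f ξ)).restrictScalars L) := by
    intro ξ
    apply Module.Finite.of_surjective ((LinearMap.proj ξ).comp Θ)
    intro v
    obtain ⟨lam, hlam⟩ := hs (Function.update 0 ξ v)
    refine ⟨lam, ?_⟩
    rw [LinearMap.comp_apply, hlam, LinearMap.proj_apply, Function.update_self]
  have h1 := LinearMap.finrank_range_add_finrank_ker Θ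
  rw [LinearMap.range_eq_top.mpr hs, finrank_top, Module.finrank_pi_fintype] at h1
  have h2 : 0 < Module.finrank L (LinearMap.ker Θ) := by
    have : Nontrivial (LinearMap.ker Θ) := by
      refine ⟨⟨⟨p, hpW⟩, hker⟩, 0, fun h => hp ?_⟩
      have h5 := congrArg (Subtype.val : LinearMap.ker Θ → W) h
      exact congrArg (Subtype.val : W → (Fin K → L)) h5
    exact Module.finrank_pos (R := L) (M := LinearMap.ker Θ)
  have h3 : ∑ ξ ∈ Z, Module.finrank L ((Fin K → MvPolynomial (Fin (n+1)) L) ⧸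
      (derSub (I ξ) (f ξ)).restrictScalars L) =
      ∑ ξ : Z, Module.finrank L ((Fin K → MvPolynomial (Fin (n+1)) L) ⧸
      (derSub (I ξ) (f ξ)).restrictScalars L) := by
    rw [← Finset.sum_coe_sort Z (fun ξ => Module.finrank L ((Fin K → MvPolynomial (Fin (n+1)) L) ⧸
      (derSub (I ξ) (f ξ)).restrictScalars L))]
  rw [h3]
  omega

/-- Generic theorem: for the generic projection and a generic linear subspace of codimension `s` of
the target, every polynomial function on a fibre over that subspace has a monic equation of degree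
`D`, if `n < s + c D`. -/
theorem generic_minpoly {𝕜 L : Type*} [Field 𝕜] [Field L] [Algebra 𝕜 L] [CharZero 𝕜] [IsAlgClosed L]
    {r n q c s : ℕ} (hc : 1 ≤ c) (hs : s ≤ n + c) (P : Ideal (MvPolynomial (Fin (r+1)) 𝕜))
    (hP : ConeData 𝕜 r n q P) (hsm : SmoothAt L q P)
    (a : Fin (n+c+1) → Fin (r+1) → L) (m : Fin s → Fin (n+c+1) → L)
    (ha : AlgebraicIndependent 𝕜 (Sum.elim
      (fun ij : Fin s × Fin (n+c+1) => m ij.1 ij.2)
      (fun ij : Fin (n+c+1) × Fin (r+1) => a ij.1 ij.2)))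
    (p : Fin (n+c+1) → L) (hp : p ≠ 0) (hmp : ∀ i, ∑ l, m i l * p l = 0)
    (D : ℕ) (hD : n < s + c * D) (g : MvPolynomial (Fin (r+1)) L) :
    ∃ Q : Polynomial L, Q.Monic ∧ Q.natDegree = D ∧ Polynomial.aeval g Q ∈ fibI L P a p := by
  classical
  have : CharZero L := charZero_of_injective_algebraMap (algebraMap 𝕜 L).injective
  have ha1 : AlgebraicIndependent 𝕜 (fun ij : Fin (n+c+1) × Fin (r+1) => a ij.1 ij.2) := by
    have := ha.comp Sum.inr Sum.inr_injective
    simpa [Function.comp_def] using this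
  have ha2 : AlgebraicIndependent 𝕜 (fun ij : Fin s × Fin (n+c+1) => m ij.1 ij.2) := by
    have := ha.comp Sum.inl Sum.inl_injective
    simpa [Function.comp_def] using this
  have hcen := centre_lemma (K := n+c+1) (by omega) P hP hsm a ha1
  have hfin := finite_quotient P hP.homog a (fun y h1 h2 => hcen y h1 h2) p
  obtain ⟨Z, hZ, T0, hT1, hT2⟩ := artin_part (fibI L P a p) hfin
  obtain ⟨Dd', hDd1', hDd2'⟩ := exists_dual_derivations _ ha
  let Dd : Fin (n+c+1) × Fin (r+1) → Derivation 𝕜 L L := fun x => Dd' (Sum.inr x)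
  have hDd1 : ∀ x, Dd x (a x.1 x.2) = 1 := fun x => hDd1' (Sum.inr x)
  have hDd2 : ∀ x y, x ≠ y → Dd x (a y.1 y.2) = 0 := fun x y h =>
    hDd2' (Sum.inr x) (Sum.inr y) (fun h' => h (Sum.inr_injective h'))
  have hDd3 : ∀ x i l, Dd x (m i l) = 0 := fun x i l =>
    hDd2' (Sum.inr x) (Sum.inl (i, l)) (by simp)
  obtain ⟨N, hN0, hN1⟩ : ∃ N, N = T0 + 1 ∧ 1 ≤ N := ⟨T0 + 1, rfl, by omega⟩
  have hhm : ∀ l, (∑ j, C (a l j) * X j) - C (p l) ∈ fibI L P a p := fun l =>
    Ideal.mem_sup_right (Ideal.subset_span ⟨l, rfl⟩)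
  have hZP : ∀ ξ ∈ Z, ∀ F ∈ P, aeval ξ F = 0 := by
    intro ξ hξ F hF
    have h1 := (hZ ξ).1 hξ (MvPolynomial.map (algebraMap 𝕜 L) F)
      (Ideal.mem_sup_left (Ideal.mem_map_of_mem _ hF))
    rwa [eval_map, ← aeval_def] at h1
  have hZh : ∀ ξ ∈ Z, ∀ l, ∑ j, a l j * ξ j = p l := by
    intro ξ hξ l
    have h1 := (hZ ξ).1 hξ _ (hhm l)
    simpa [sub_eq_zero] using h1
  have hZ0 : ∀ ξ ∈ Z, ξ ≠ 0 := by
    rintro ξ hξ rfl
    apply hp
    ext l
    rw [← hZh _ hξ l]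
    simp
  have hex : ∀ ξ : Fin (r+1) → L, ∃ φ : MvPolynomial (Fin (r+1)) L →ₐ[L] MvPolynomial (Fin (n+1)) L,
      ξ ∈ Z → (Function.Surjective φ ∧
      (∀ j, φ (X j) - C (ξ j) ∈ mI (n+1) L) ∧
      (∀ F ∈ extI L P, φ F ∈ mI (n+1) L ^ (N+1)) ∧
      (∀ N', N' ≤ N+1 → ∀ g, φ g ∈ mI (n+1) L ^ N' → g ∈ extI L P ⊔ ptI ξ ^ N') ∧
      (∀ δ : Derivation 𝕜 L L,
        ∃ D : Derivation ℤ (MvPolynomial (Fin (n+1)) L) (MvPolynomial (Fin (n+1)) L),
        ∀ g, D (φ g) - φ (coeffDer (δ.restrictScalars ℤ) g) ∈ mI (n+1) L ^ N) ∧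
      (∃ D : Derivation ℤ (MvPolynomial (Fin (n+1)) L) (MvPolynomial (Fin (n+1)) L),
        ∀ g, D (φ g) - φ (mkDerivation L X g) ∈ mI (n+1) L ^ N)) := by
    intro ξ
    by_cases hξ : ξ ∈ Z
    · obtain ⟨φ, hφ⟩ := local_param P hP hsm ξ (hZ0 ξ hξ) (hZP ξ hξ) (N+1)
      exact ⟨φ, fun _ => hφ⟩
    · exact ⟨aeval 0, fun h => absurd h hξ⟩
  choose φ hφ using hex
  set f : (Fin (r+1) → L) → Fin (n+c+1) → MvPolynomial (Fin (n+1)) L :=
    fun ξ l => φ ξ ((∑ j, C (a l j) * X j) - C (p l)) with hf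
  set I : (Fin (r+1) → L) → Ideal (MvPolynomial (Fin (n+1)) L) :=
    fun ξ => Ideal.span (Set.range (f ξ)) ⊔ mI (n+1) L ^ N with hI
  have hfI : ∀ ξ l, f ξ l ∈ I ξ := fun ξ l => Ideal.mem_sup_left (Ideal.subset_span ⟨l, rfl⟩)
  have hmIle : ∀ ξ, mI (n+1) L ^ N ≤ I ξ := fun ξ => le_sup_right
  have hfm : ∀ ξ ∈ Z, ∀ l, f ξ l ∈ mI (n+1) L := by
    intro ξ hξ l
    have h1 := phi_sub_C (φ ξ) (hφ ξ hξ).2.1 ((∑ j, C (a l j) * X j) - C (p l))
    have h2 : eval ξ ((∑ j, C (a l j) * X j) - C (p l)) = 0 := (hZ ξ).1 hξ _ (hhm l)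
    rw [h2, C_0, sub_zero] at h1
    exact h1
  -- stabilisation of powers
  have hstab : ∀ ξ ∈ Z, mI (n+1) L ^ N ≤ Ideal.span (Set.range (f ξ)) ⊔ mI (n+1) L ^ (N+1) := by
    intro ξ hξ
    obtain ⟨hs, hnear, hvan, -⟩ := hφ ξ hξ
    have h1 := Ideal.map_mono (f := φ ξ) (hT2 ξ N (by omega))
    rw [Ideal.map_pow, map_ptI_eq (φ ξ) hnear hs, Ideal.map_sup, Ideal.map_pow,
      map_ptI_eq (φ ξ) hnear hs] at h1
    refine h1.trans (sup_le ?_ le_sup_right)
    rw [fibI, Ideal.map_sup]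
    refine sup_le ?_ ?_
    · refine le_trans ?_ le_sup_right
      rw [Ideal.map_le_iff_le_comap]
      intro F hF
      exact hvan F hF
    · refine le_trans ?_ le_sup_left
      rw [Ideal.map_span, Ideal.span_le]
      rintro _ ⟨_, ⟨l, rfl⟩, rfl⟩
      exact Ideal.subset_span ⟨l, rfl⟩
  -- multiplication by the variables
  have hmul : ∀ (l : Fin (n+c+1)) (j : Fin (r+1)), ∀ ξ ∈ Z,
      (fun l' => (if l' = l then φ ξ (X j) else 0) - C (Dd (l, j) (p l'))) ∈ derSub (I ξ) (f ξ) := by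
    intro l j ξ hξ
    obtain ⟨D, hD⟩ := (hφ ξ hξ).2.2.2.2.1 (Dd (l, j))
    exact dermem_mul (φ ξ) a p (I ξ) (hmIle ξ) (Dd (l, j)) l j (hDd1 (l, j))
      (fun l' j' h => hDd2 (l, j) (l', j') h) D hD
  have hW : ∀ l j, (fun l' => Dd (l, j) (p l')) ∈ centre (r := n+c) m := by
    intro l j i
    have h1 : Dd (l, j) (∑ l', m i l' * p l') = 0 := by rw [hmp, map_zero]
    rw [map_sum] at h1
    rw [← h1]
    refine Finset.sum_congr rfl fun l' _ => ?_
    rw [Derivation.leibniz, hDd3]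
    simp [smul_eq_mul]
  obtain ⟨i0, hi0⟩ : ∃ i, p i ≠ 0 := by
    by_contra hcon
    push Not at hcon
    exact hp (funext hcon)
  -- dimension bound
  have hbound := dimension_bound_W (N := N) Z φ f I (fun ξ hξ => (hφ ξ hξ).1)
    (fun ξ hξ => (hφ ξ hξ).2.1) (fun ξ _ => hmIle ξ)
    (fun l j => ⟨fun l' => Dd (l, j) (p l'), hmul l j⟩) (centre (r := n+c) m)
    (fun l => ⟨(p i0)⁻¹ • ∑ j, a i0 j • (fun l' => Dd (l, j) (p l')),
      Submodule.smul_mem _ _ (Submodule.sum_mem _ fun j _ => Submodule.smul_mem _ _ (hW l j)),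
      fun ξ hξ => by
        have e1 : (fun l' => (if l' = l then (1 : MvPolynomial (Fin (n+1)) L) else 0) -
            C (((p i0)⁻¹ • ∑ j, a i0 j • (fun l' => Dd (l, j) (p l'))) l')) =
            (C (p i0)⁻¹ : MvPolynomial (Fin (n+1)) L) • (∑ j, (C (a i0 j) : MvPolynomial (Fin (n+1)) L) •
              (fun l' => (if l' = l then φ ξ (X j) else 0) - C (Dd (l, j) (p l')))) -
            (fun l' => if l' = l then C (p i0)⁻¹ * f ξ i0 else 0) := by
          have hfx : f ξ i0 = (∑ j, C (a i0 j) * φ ξ (X j)) - C (p i0) := by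
            simp only [hf, map_sub, map_sum, map_mul, phi_C]
          have hpp : (C (p i0)⁻¹ : MvPolynomial (Fin (n+1)) L) * C (p i0) = 1 := by
            rw [← C_mul, inv_mul_cancel₀ hi0, C_1]
          funext l'
          simp only [Pi.sub_apply, Pi.smul_apply, Finset.sum_apply, smul_eq_mul, C_mul, map_sum]
          by_cases hl : l' = l
          · simp only [hl, if_true, hfx, mul_sub, Finset.sum_sub_distrib, hpp]
            ring
          · simp only [hl, if_false, mul_sub, Finset.sum_sub_distrib, mul_zero, Finset.sum_const_zero]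
            ring
        rw [e1]
        refine Submodule.sub_mem _ (Submodule.smul_mem _ _ (Submodule.sum_mem _ fun j _ =>
          Submodule.smul_mem _ _ (hmul l j ξ hξ))) ?_
        refine ⟨0, fun i => ?_⟩
        simp only [Derivation.coe_zero, Pi.zero_apply, sub_zero]
        split_ifs
        · exact Ideal.mul_mem_left _ _ (hfI ξ i0)
        · exact Ideal.zero_mem _⟩) p hp (fun i => hmp i)
    (fun ξ hξ => by
      obtain ⟨D, hD⟩ := (hφ ξ hξ).2.2.2.2.2
      exact dermem_euler (φ ξ) a p (I ξ) (hmIle ξ) (fun l => hfI ξ l) D hD)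
  have hrank := finrank_centre (r := n+c) m (li_of_algInd (by omega) m ha2)
  -- main step
  have hexe : ∀ ξ, ξ ∈ Z → ∃ e, φ ξ ((g - C (eval ξ g)) ^ e) ∈ I ξ := by
    intro ξ hξ
    refine ⟨N, hmIle ξ ?_⟩
    rw [map_pow]
    apply Ideal.pow_mem_pow
    rw [map_sub, phi_C]
    exact phi_sub_C (φ ξ) (hφ ξ hξ).2.1 g
  set e : (Fin (r+1) → L) → ℕ := fun ξ => if h : ξ ∈ Z then Nat.find (hexe ξ h) else 0 with he
  have he1 : ∀ ξ ∈ Z, φ ξ ((g - C (eval ξ g)) ^ e ξ) ∈ I ξ := by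
    intro ξ hξ
    simp only [he, dif_pos hξ]
    exact Nat.find_spec (hexe ξ hξ)
  have he2 : ∀ ξ ∈ Z, ∀ s, s < e ξ → φ ξ ((g - C (eval ξ g)) ^ s) ∉ I ξ := by
    intro ξ hξ s hs
    simp only [he, dif_pos hξ] at hs
    exact Nat.find_min (hexe ξ hξ) hs
  have he3 : ∀ ξ ∈ Z, c * e ξ ≤ Module.finrank L ((Fin (n+c+1) → MvPolynomial (Fin (n+1)) L) ⧸
      (derSub (I ξ) (f ξ)).restrictScalars L) := by
    intro ξ hξ
    rcases Nat.eq_zero_or_pos (e ξ) with h0 | hpos
    · rw [h0]; simp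
    · obtain ⟨s, hs⟩ : ∃ s, e ξ = s + 1 := ⟨e ξ - 1, by omega⟩
      have h1 : ¬ mI (n+1) L ^ s ≤ Ideal.span (Set.range (f ξ)) ⊔ mI (n+1) L ^ N := by
        intro hle
        apply he2 ξ hξ s (by omega)
        apply hle
        rw [map_pow]
        apply Ideal.pow_mem_pow
        rw [map_sub, phi_C]
        exact phi_sub_C (φ ξ) (hφ ξ hξ).2.1 g
      have h2 := (local_theorem (n := n+1) (k := n+c+1) (by omega) (by omega) (f ξ) (hfm ξ hξ) N
        (hstab ξ hξ) s h1).2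
      rw [hs]
      have h3 : n + c + 1 - (n + 1) = c := by omega
      rw [h3] at h2
      exact h2
  have hsum : ∑ ξ ∈ Z, e ξ ≤ D := by
    have h1 : c * ∑ ξ ∈ Z, e ξ + s ≤ n + c := by
      rw [Finset.mul_sum]
      have := Finset.sum_le_sum he3
      omega
    have h2 : c * ∑ ξ ∈ Z, e ξ < c * (D + 1) := by
      have : c * (D + 1) = c * D + c := by ring
      omega
    have := Nat.lt_of_mul_lt_mul_left h2
    omega
  -- the product lies in the ideal
  have hprod : ∏ ξ ∈ Z, (g - C (eval ξ g)) ^ e ξ ∈ fibI L P a p := by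
    apply hT1
    intro ξ hξ
    obtain ⟨hs, hnear, hvan, hsep, -⟩ := hφ ξ hξ
    have h1 : (g - C (eval ξ g)) ^ e ξ ∈ fibI L P a p ⊔ ptI ξ ^ T0 := by
      have h2 := he1 ξ hξ
      rw [hI] at h2
      obtain ⟨y, hy, z, hz, hyz⟩ := Submodule.mem_sup.1 h2
      have h3 : y ∈ (Ideal.span (Set.range fun l : Fin (n+c+1) =>
          (∑ j, C (a l j) * X j : MvPolynomial (Fin (r+1)) L) - C (p l))).map (φ ξ) := by
        rw [Ideal.map_span]
        have h4 : (φ ξ) '' (Set.range fun l : Fin (n+c+1) =>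
          (∑ j, C (a l j) * X j : MvPolynomial (Fin (r+1)) L) - C (p l)) = Set.range (f ξ) := by
          rw [← Set.range_comp]; rfl
        rw [h4]; exact hy
      obtain ⟨y', hy', hy2⟩ := (Ideal.mem_map_iff_of_surjective (φ ξ) hs).1 h3
      have h5 : φ ξ ((g - C (eval ξ g)) ^ e ξ - y') ∈ mI (n+1) L ^ N := by
        rw [map_sub, hy2, ← hyz]; simpa using hz
      have h6 := hsep N (by omega) _ h5
      have h7 : extI L P ⊔ ptI ξ ^ N ≤ fibI L P a p ⊔ ptI ξ ^ T0 :=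
        sup_le_sup le_sup_left (Ideal.pow_le_pow_right (by omega))
      have h8 := Ideal.add_mem _ (h7 h6) (Ideal.mem_sup_left (Ideal.mem_sup_right hy') :
        y' ∈ fibI L P a p ⊔ ptI ξ ^ T0)
      simpa using h8
    rw [← Finset.mul_prod_erase Z _ hξ]
    exact Ideal.mul_mem_right _ _ h1
  -- conclusion
  set Q : Polynomial L := (∏ ξ ∈ Z, (Polynomial.X - Polynomial.C (eval ξ g)) ^ e ξ) *
    Polynomial.X ^ (D - ∑ ξ ∈ Z, e ξ) with hQ
  have hQm1 : (∏ ξ ∈ Z, (Polynomial.X - Polynomial.C (eval ξ g)) ^ e ξ).Monic :=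
    Polynomial.monic_prod_of_monic _ _ fun ξ _ => (Polynomial.monic_X_sub_C _).pow _
  have hQm : Q.Monic := hQm1.mul (Polynomial.monic_X_pow _)
  have hQd : Q.natDegree = D := by
    rw [hQ, hQm1.natDegree_mul (Polynomial.monic_X_pow _), Polynomial.natDegree_X_pow,
      Polynomial.natDegree_prod_of_monic _ _ fun ξ _ => (Polynomial.monic_X_sub_C _).pow _]
    have : ∑ i ∈ Z, ((Polynomial.X - Polynomial.C (eval i g)) ^ e i).natDegree = ∑ i ∈ Z, e i := by
      refine Finset.sum_congr rfl fun i _ => ?_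
      rw [(Polynomial.monic_X_sub_C (eval i g)).natDegree_pow, Polynomial.natDegree_X_sub_C, mul_one]
    rw [this]; omega
  refine ⟨Q, hQm, hQd, ?_⟩
  rw [hQ, map_mul]
  apply Ideal.mul_mem_right
  have h2 : Polynomial.aeval g (∏ ξ ∈ Z, (Polynomial.X - Polynomial.C (eval ξ g)) ^ e ξ) =
      ∏ ξ ∈ Z, (g - C (eval ξ g)) ^ e ξ := by
    rw [map_prod]
    refine Finset.prod_congr rfl fun ξ _ => ?_
    simp [algebraMap_eq]
  rw [h2]
  exact hprod

end Pool.Agent.Y241.FR
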