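import Pool.Agent.Y241.FR.Gen
import Pool.Agent.Helper693.RF.H2gen
import Pool.Agent.Helper693.RF.H2desc
import Pool.Agent.Helper693.RF.H2spec
import Pool.Agent.Helper693.RF.Assembly

/-!
# From the generic projection to general projections
-/

namespace Pool.Agent.Y241.FR

open MvPolynomial H693RF

universe u

/-- descent of a monic equation to a subfield -/
theorem descend_monic {𝕜 L₀ L : Type*} [Field 𝕜] [Field L₀] [Field L] [Algebra 𝕜 L₀] [Algebra 𝕜 L]
    [Algebra L₀ L] [IsScalarTower 𝕜 L₀ L] {r K : ℕ} (P : Ideal (MvPolynomial (Fin (r+1)) 𝕜))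
    (a : Fin K → Fin (r+1) → L₀) (p : Fin K → L₀) (g : MvPolynomial (Fin (r+1)) L₀)
    (Q : Polynomial L) (hQ : Q.Monic)
    (hg : Polynomial.aeval (map (algebraMap L₀ L) g) Q ∈
      fibI L P (fun l j => algebraMap L₀ L (a l j)) (fun l => algebraMap L₀ L (p l))) :
    ∃ Q₀ : Polynomial L₀, Q₀.Monic ∧ Q₀.natDegree = Q.natDegree ∧
      Polynomial.aeval g Q₀ ∈ fibI L₀ P a p := by
  classical
  obtain ⟨ρ, hρ⟩ := LinearMap.exists_leftInverse_of_injective (Algebra.linearMap L₀ L)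
    (LinearMap.ker_eq_bot.2 (algebraMap L₀ L).injective)
  have hρ1 : ∀ c : L₀, ρ (algebraMap L₀ L c) = c := fun c => by
    have := LinearMap.congr_fun hρ c
    simpa using this
  have h0 : ρ 0 = 0 := map_zero ρ
  have h1' : ρ 1 = 1 := by
    have := hρ1 1
    rwa [map_one] at this
  let R : MvPolynomial (Fin (r+1)) L → MvPolynomial (Fin (r+1)) L₀ := descend_field_R ρ
  have hR : ∀ u m, coeff m (R u) = ρ (coeff m u) := fun u m => descend_field_coeff ρ h0 u m
  have hRadd : ∀ u v, R (u + v) = R u + R v := by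
    intro u v
    ext m
    rw [coeff_add, hR, hR, hR, coeff_add, map_add]
  have hR0 : R 0 = 0 := by
    ext m
    rw [hR, coeff_zero, coeff_zero, h0]
  have hRsum : ∀ (S : Finset ℕ) (u : ℕ → MvPolynomial (Fin (r+1)) L),
      R (∑ j ∈ S, u j) = ∑ j ∈ S, R (u j) := by
    intro S u
    induction S using Finset.induction_on with
    | empty => simpa using hR0
    | insert a S ha ih => rw [Finset.sum_insert ha, Finset.sum_insert ha, hRadd, ih]
  have hRC : ∀ c : L, R (C c) = C (ρ c) := by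
    intro c
    ext m
    rw [hR, coeff_C, coeff_C]
    split_ifs
    · rfl
    · exact h0
  have hRmul : ∀ f u, R (u * map (algebraMap L₀ L) f) = R u * f := by
    intro f u
    ext m
    rw [hR, coeff_mul, coeff_mul, map_sum]
    refine Finset.sum_congr rfl fun x _ => ?_
    rw [coeff_map, hR, mul_comm (coeff x.1 u), ← Algebra.smul_def, map_smul, smul_eq_mul, mul_comm]
  have hI : ∀ x ∈ (fibI L₀ P a p).map (MvPolynomial.map (algebraMap L₀ L)), ∀ u,
      R (u * x) ∈ fibI L₀ P a p := by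
    intro x hx
    refine Submodule.span_induction (p := fun x _ => ∀ u, R (u * x) ∈ fibI L₀ P a p)
      ?_ ?_ ?_ ?_ hx
    · rintro _ ⟨f, hf, rfl⟩ u
      have hf' : f ∈ fibI L₀ P a p := hf
      have e : R (u * map (algebraMap L₀ L) f) = R u * f := hRmul f u
      rw [e]
      exact Ideal.mul_mem_left _ _ hf'
    · intro u
      rw [mul_zero, hR0]
      exact Ideal.zero_mem _
    · intro x y _ _ h1 h2 u
      rw [mul_add, hRadd]
      exact Ideal.add_mem _ (h1 u) (h2 u)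
    · intro b x _ h1 u
      rw [smul_eq_mul, ← mul_assoc]
      exact h1 _
  rw [descend_field_map] at hg
  have h2 := hI _ hg 1
  rw [one_mul, Polynomial.aeval_eq_sum_range, hRsum] at h2
  have h3 : ∀ j, R (Q.coeff j • (map (algebraMap L₀ L) g) ^ j) = C (ρ (Q.coeff j)) * g ^ j := by
    intro j
    rw [smul_eq_C_mul, ← map_pow, hRmul, hRC]
  simp only [h3] at h2
  set Q₀ : Polynomial L₀ := ∑ j ∈ Finset.range (Q.natDegree + 1),
    Polynomial.monomial j (ρ (Q.coeff j)) with hQ₀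
  have hc : ∀ j, Q₀.coeff j = ρ (Q.coeff j) := by
    intro j
    rw [hQ₀, Polynomial.finsetSum_coeff]
    simp only [Polynomial.coeff_monomial]
    by_cases hj : j ∈ Finset.range (Q.natDegree + 1)
    · rw [Finset.sum_eq_single j (fun b _ hb => if_neg hb) (fun h => absurd hj h), if_pos rfl]
    · rw [Finset.sum_eq_zero]
      · rw [Polynomial.coeff_eq_zero_of_natDegree_lt (by
          rw [Finset.mem_range] at hj; omega), h0]
      · intro b hb
        rw [if_neg]
        rintro rfl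
        exact hj hb
  have hle : Q₀.natDegree ≤ Q.natDegree := by
    rw [Polynomial.natDegree_le_iff_coeff_eq_zero]
    intro j hj
    rw [hc, Polynomial.coeff_eq_zero_of_natDegree_lt hj, h0]
  have hlead : Q₀.coeff Q.natDegree = 1 := by
    rw [hc, Polynomial.coeff_natDegree, hQ.leadingCoeff, h1']
  have hmon : Q₀.Monic := Polynomial.monic_of_natDegree_le_of_coeff_eq_one _ hle hlead
  have hdeg : Q₀.natDegree = Q.natDegree := by
    refine le_antisymm hle ?_
    apply Polynomial.le_natDegree_of_ne_zero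
    rw [hlead]
    exact one_ne_zero
  refine ⟨Q₀, hmon, hdeg, ?_⟩
  rw [Polynomial.aeval_eq_sum_range, hdeg]
  have h4 : ∀ j, Q₀.coeff j • g ^ j = C (ρ (Q.coeff j)) * g ^ j := by
    intro j
    rw [hc, smul_eq_C_mul]
  simp only [h4]
  exact h2

/-- specialisation of a membership from the generic field to a member of the family -/
theorem specialise_mem {𝕜 B L : Type*} [Field 𝕜] [Field L] [Algebra 𝕜 L] (θ : (B → 𝕜) →ₐ[𝕜] L)
    (hθ : Function.Surjective θ)
    (hcommon : ∀ S : Finset (B → 𝕜), (∀ e ∈ S, θ e = 0) → ∃ b, ∀ e ∈ S, e b = 0)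
    {r K : ℕ} (P : Ideal (MvPolynomial (Fin (r+1)) 𝕜))
    (H : B → Fin K → Fin (r+1) → 𝕜) (p : B → Fin K → 𝕜) (F : MvPolynomial (Fin (r+1)) (B → 𝕜))
    (hF : map (θ : (B → 𝕜) →+* L) F ∈
      fibI L P (fun l j => θ (fun b => H b l j)) (fun l => θ (fun b => p b l))) :
    ∃ b, map (Pi.evalRingHom (fun _ : B => 𝕜) b) F ∈ fibI 𝕜 P (H b) (p b) := by
  classical
  let J : Ideal (MvPolynomial (Fin (r+1)) (B → 𝕜)) :=
    P.map (MvPolynomial.map (algebraMap 𝕜 (B → 𝕜))) ⊔
      Ideal.span (Set.range fun l : Fin K => (∑ j, C (fun b => H b l j) * X j) - C (fun b => p b l))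
  have hJL : J.map (MvPolynomial.map (θ : (B → 𝕜) →+* L)) =
      fibI L P (fun l j => θ (fun b => H b l j)) (fun l => θ (fun b => p b l)) := by
    unfold fibI extI
    rw [Ideal.map_sup, Ideal.map_map, Ideal.map_span]
    congr 1
    · congr 1
      refine RingHom.ext fun f => ?_
      rw [RingHom.comp_apply, map_map]
      have : (θ : (B → 𝕜) →+* L).comp (algebraMap 𝕜 (B → 𝕜)) = algebraMap 𝕜 L := θ.comp_algebraMap
      rw [this]
    · congr 1
      rw [← Set.range_comp]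
      congr 1
      funext l
      simp [map_sum]
  have hsurj : Function.Surjective (MvPolynomial.map (σ := Fin (r+1)) (θ : (B → 𝕜) →+* L)) :=
    map_surjective _ hθ
  rw [← hJL, Ideal.mem_map_iff_of_surjective _ hsurj] at hF
  obtain ⟨x, hxJ, hx⟩ := hF
  set E : MvPolynomial (Fin (r+1)) (B → 𝕜) := F - x with hE
  have hE0 : map (θ : (B → 𝕜) →+* L) E = 0 := by
    rw [hE, map_sub, hx, sub_self]
  obtain ⟨b, hb⟩ := hcommon (E.support.image fun s => coeff s E) (by
    intro e he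
    obtain ⟨s, -, rfl⟩ := Finset.mem_image.1 he
    have h1 := congrArg (coeff s) hE0
    rw [coeff_map, coeff_zero] at h1
    exact h1)
  have hEb : map (Pi.evalRingHom (fun _ : B => 𝕜) b) E = 0 := by
    ext s
    rw [coeff_map, coeff_zero]
    by_cases hs : s ∈ E.support
    · exact hb _ (Finset.mem_image_of_mem _ hs)
    · rw [notMem_support_iff.1 hs, map_zero]
  have hid : (Pi.evalRingHom (fun _ : B => 𝕜) b).comp (algebraMap 𝕜 (B → 𝕜)) = RingHom.id 𝕜 := by
    ext c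
    rfl
  have hJb : J.map (MvPolynomial.map (Pi.evalRingHom (fun _ : B => 𝕜) b)) =
      fibI 𝕜 P (H b) (p b) := by
    unfold fibI extI
    rw [Ideal.map_sup, Ideal.map_map, Ideal.map_span]
    congr 1
    · congr 1
      refine RingHom.ext fun f => ?_
      rw [RingHom.comp_apply, map_map, hid, Algebra.algebraMap_self]
    · congr 1
      rw [← Set.range_comp]
      congr 1
      funext l
      simp [map_sum]
  refine ⟨b, ?_⟩
  rw [← hJb]
  have h1 := Ideal.mem_map_of_mem (MvPolynomial.map (Pi.evalRingHom (fun _ : B => 𝕜) b)) hxJ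
  have h2 : map (Pi.evalRingHom (fun _ : B => 𝕜) b) F =
      map (Pi.evalRingHom (fun _ : B => 𝕜) b) x := by
    rw [hE, map_sub] at hEb
    exact sub_eq_zero.1 hEb
  rw [h2]
  exact h1

/-- exponents of degree at most `D₀` -/
def expo (r D₀ : ℕ) : Finset (Fin (r+1) →₀ ℕ) :=
  (Finset.range (D₀ + 1)).biUnion fun e => Finset.finsuppAntidiag (Finset.univ : Finset (Fin (r+1))) e

theorem mem_expo {r D₀ : ℕ} (α : Fin (r+1) →₀ ℕ) (hα : (α.sum fun _ e => e) ≤ D₀) : α ∈ expo r D₀ := by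
  classical
  rw [expo, Finset.mem_biUnion]
  refine ⟨α.sum fun _ e => e, Finset.mem_range.2 (by omega), ?_⟩
  rw [Finset.mem_finsuppAntidiag]
  refine ⟨?_, Finset.subset_univ _⟩
  rw [Finsupp.sum_fintype]
  intro i
  rfl

theorem sum_expo {R : Type*} [CommRing R] {r D₀ : ℕ} (g : MvPolynomial (Fin (r+1)) R)
    (hg : g.totalDegree ≤ D₀) : ∑ α ∈ expo r D₀, monomial α (coeff α g) = g := by
  classical
  conv_rhs => rw [g.as_sum]
  symm
  apply Finset.sum_subset
  · intro α hα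
    exact mem_expo α ((le_totalDegree hα).trans hg)
  · intro α _ hα
    rw [notMem_support_iff.1 hα, map_zero]

/-- the special statement: general projections, general linear subspaces of the target -/
theorem special_minpoly {𝕜 : Type u} [Field 𝕜] [IsAlgClosed 𝕜] [CharZero 𝕜] {r n c s : ℕ} (hc : 1 ≤ c)
    (hr : n ≤ r) (hs : s ≤ n + c) (P : Ideal (MvPolynomial (Fin (r+1)) 𝕜))
    (hP : IsSmoothProjectiveVariety 𝕜 r n P) (D : ℕ) (hD : n < s + c * D) (D₀ : ℕ)
    (i₀ : Fin (n+c+1)) :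
    ∃ Φ : MvPolynomial ((Fin s × Fin (n+c+1)) ⊕ (Fin (n+c+1) × Fin (r+1))) 𝕜, Φ ≠ 0 ∧
      ∀ (M : Fin s → Fin (n+c+1) → 𝕜) (H : Fin (n+c+1) → Fin (r+1) → 𝕜),
        eval (Sum.elim (fun ij => M ij.1 ij.2) (fun ij => H ij.1 ij.2)) Φ ≠ 0 →
        ∀ p : Fin (n+c+1) → 𝕜, p i₀ ≠ 0 → (∀ i, ∑ l, M i l * p l = 0) →
          ∀ g : MvPolynomial (Fin (r+1)) 𝕜, g.totalDegree ≤ D₀ →
            ∃ Q : Polynomial 𝕜, Q.Monic ∧ Q.natDegree = D ∧ Polynomial.aeval g Q ∈ fibI 𝕜 P H p := by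
  classical
  by_contra hcon
  push Not at hcon
  let B : Type u := {b : ((Fin s → Fin (n+c+1) → 𝕜) × (Fin (n+c+1) → Fin (r+1) → 𝕜)) ×
      ((Fin (n+c+1) → 𝕜) × MvPolynomial (Fin (r+1)) 𝕜) //
    b.2.1 i₀ ≠ 0 ∧ (∀ i, ∑ l, b.1.1 i l * b.2.1 l = 0) ∧ b.2.2.totalDegree ≤ D₀ ∧
      ∀ Q : Polynomial 𝕜, Q.Monic → Q.natDegree = D →
        Polynomial.aeval b.2.2 Q ∉ fibI 𝕜 P b.1.2 b.2.1}
  obtain ⟨L₀, _, _, θ, hsurj, hai, hcommon⟩ := exists_generic_field (𝕜 := 𝕜) (B := B)
    (fun b => (Sum.elim (fun ij : Fin s × Fin (n+c+1) => b.1.1.1 ij.1 ij.2)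
      (fun ij : Fin (n+c+1) × Fin (r+1) => b.1.1.2 ij.1 ij.2))) (by
      intro Φ hΦ
      obtain ⟨M, H, hMH, p, hp1, hp2, g, hg, hQ⟩ := hcon Φ hΦ
      exact ⟨⟨((M, H), (p, g)), hp1, hp2, hg, hQ⟩, hMH⟩)
  obtain ⟨L, _, _, _, _, _⟩ := exists_algClosed 𝕜 L₀
  have hcd := coneData_of_variety (q := r - n) (by omega) P hP
  have hsm := smoothAt_of_variety (L := L) (q := r - n) (by omega) P hP
  let m : Fin s → Fin (n+c+1) → L₀ := fun i l => θ (fun b : B => b.1.1.1 i l)
  let a : Fin (n+c+1) → Fin (r+1) → L₀ := fun l j => θ (fun b : B => b.1.1.2 l j)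
  let p : Fin (n+c+1) → L₀ := fun l => θ (fun b : B => b.1.2.1 l)
  let G : MvPolynomial (Fin (r+1)) (B → 𝕜) :=
    ∑ α ∈ expo r D₀, monomial α (fun b : B => coeff α b.1.2.2)
  have hGb : ∀ b : B, map (Pi.evalRingHom (fun _ : B => 𝕜) b) G = b.1.2.2 := by
    intro b
    rw [map_sum]
    simp only [map_monomial, Pi.evalRingHom_apply]
    exact sum_expo _ b.2.2.2.1
  have hai' : AlgebraicIndependent 𝕜 (Sum.elim (fun ij : Fin s × Fin (n+c+1) => m ij.1 ij.2)
      (fun ij : Fin (n+c+1) × Fin (r+1) => a ij.1 ij.2)) := by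
    convert hai using 1
    funext x
    rcases x with x | x <;> rfl
  have hai2 : AlgebraicIndependent 𝕜 (Sum.elim
      (fun ij : Fin s × Fin (n+c+1) => algebraMap L₀ L (m ij.1 ij.2))
      (fun ij : Fin (n+c+1) × Fin (r+1) => algebraMap L₀ L (a ij.1 ij.2))) := by
    have h := ai_map _ hai' (IsScalarTower.toAlgHom 𝕜 L₀ L)
    convert h using 1
    funext x
    rcases x with x | x <;> rfl
  have hp1 : p i₀ ≠ 0 := by
    have h2 : (fun b : B => b.1.2.1 i₀) * (fun b : B => (b.1.2.1 i₀)⁻¹) = 1 := by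
      funext b
      exact mul_inv_cancel₀ b.2.1
    have h3 : p i₀ * θ (fun b : B => (b.1.2.1 i₀)⁻¹) = 1 := by
      show θ (fun b : B => b.1.2.1 i₀) * _ = 1
      rw [← map_mul, h2, map_one]
    intro h4
    rw [h4, zero_mul] at h3
    exact zero_ne_one h3
  have hp0 : (fun l => algebraMap L₀ L (p l)) ≠ 0 := by
    intro h
    have h1 := congrFun h i₀
    simp only [Pi.zero_apply] at h1
    exact hp1 ((map_eq_zero _).1 h1)
  have hmp : ∀ i, ∑ l, m i l * p l = 0 := by
    intro i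
    have h1 : ∑ l, m i l * p l = θ (∑ l, (fun b : B => b.1.1.1 i l) * (fun b : B => b.1.2.1 l)) := by
      rw [map_sum]
      refine Finset.sum_congr rfl fun l _ => ?_
      rw [map_mul]
    rw [h1]
    have h2 : ∑ l, (fun b : B => b.1.1.1 i l) * (fun b : B => b.1.2.1 l) = 0 := by
      funext b
      have := b.2.2.1 i
      simpa [Finset.sum_apply] using this
    rw [h2, map_zero]
  have hmp2 : ∀ i, ∑ l, algebraMap L₀ L (m i l) * algebraMap L₀ L (p l) = 0 := by
    intro i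
    have h1 := congrArg (algebraMap L₀ L) (hmp i)
    simpa [map_sum] using h1
  obtain ⟨Q, hQm, hQd, hQ⟩ := generic_minpoly (L := L) hc hs P hcd hsm
    (fun l j => algebraMap L₀ L (a l j)) (fun i l => algebraMap L₀ L (m i l)) hai2
    (fun l => algebraMap L₀ L (p l)) hp0 hmp2 D hD
    (map (algebraMap L₀ L) (map (θ : (B → 𝕜) →+* L₀) G))
  obtain ⟨Q₀, hQ₀m, hQ₀d, hQ₀⟩ := descend_monic P a p _ Q hQm hQ
  obtain ⟨Q₁, hQ₁, hQ₁d, hQ₁m⟩ := Polynomial.lifts_and_natDegree_eq_and_monic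
    (f := (θ : (B → 𝕜) →+* L₀)) (p := Q₀) (by
      rw [Polynomial.lifts_iff_coeff_lifts]
      intro n
      exact hsurj _) hQ₀m
  have hcompat : ∀ (A A' : Type u) [CommRing A] [CommRing A'] (f : A →+* A')
      (g : MvPolynomial (Fin (r+1)) A) (R : Polynomial A),
      map f (Polynomial.aeval g R) = Polynomial.aeval (map f g) (R.map f) := by
    intro A A' _ _ f g R
    rw [Polynomial.aeval_def, Polynomial.aeval_def, Polynomial.hom_eval₂, Polynomial.eval₂_map]
    congr 1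
    ext x
    simp [algebraMap_eq]
  obtain ⟨b, hb⟩ := specialise_mem θ hsurj hcommon P (fun b => b.1.1.2) (fun b => b.1.2.1)
    (Polynomial.aeval G Q₁) (by
      rw [hcompat, hQ₁]
      exact hQ₀)
  rw [hcompat, hGb] at hb
  refine b.2.2.2.2 _ (hQ₁m.map _) ?_ hb
  rw [hQ₁m.natDegree_map, hQ₁d, hQ₀d, hQd]

end Pool.Agent.Y241.FR
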